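import Pool.Agent.Y507.CMC.Stm

/-! # CMC, CUR: the curve is smooth, regular and injective -/

set_option autoImplicit false

open Set Real
open scoped ContDiff

namespace Pool.Agent.Y748.CMC

open Pool.Agent.Y507.CMC

variable {g k : ℝ → ℝ}

theorem hcos : ContDiff ℝ ∞ (fun t : ℝ => cos (2 * π * t)) :=
  Real.contDiff_cos.comp (contDiff_const.mul contDiff_id)

theorem hsin : ContDiff ℝ ∞ (fun t : ℝ => sin (2 * π * t)) :=
  Real.contDiff_sin.comp (contDiff_const.mul contDiff_id)

theorem cur_smooth (hg : ContDiff ℝ ∞ g) (hk : ContDiff ℝ ∞ k) : ContDiff ℝ ∞ (cur g k) := by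
  rw [contDiff_euclidean]
  intro i
  fin_cases i
  · exact hcos
  · exact (hg.comp hcos).add ((hk.comp hcos).mul hsin)

theorem cur_periodic (t : ℝ) : cur g k (t + 1) = cur g k t := by
  have h1 : cos (2 * π * (t + 1)) = cos (2 * π * t) := by
    rw [mul_add, mul_one, Real.cos_add_two_pi]
  have h2 : sin (2 * π * (t + 1)) = sin (2 * π * t) := by
    rw [mul_add, mul_one, Real.sin_add_two_pi]
  simp only [cur, h1, h2]

theorem dcos (t : ℝ) : HasDerivAt (fun t : ℝ => cos (2 * π * t)) (-(2 * π) * sin (2 * π * t)) t := by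
  have h1 : HasDerivAt (fun t : ℝ => 2 * π * t) (2 * π) t := by
    simpa using (hasDerivAt_id t).const_mul (2 * π)
  have h2 := h1.cos
  refine h2.congr_deriv ?_
  ring

theorem dsin (t : ℝ) : HasDerivAt (fun t : ℝ => sin (2 * π * t)) (2 * π * cos (2 * π * t)) t := by
  have h1 : HasDerivAt (fun t : ℝ => 2 * π * t) (2 * π) t := by
    simpa using (hasDerivAt_id t).const_mul (2 * π)
  have h2 := h1.sin
  refine h2.congr_deriv ?_
  ring

theorem cur_hasDeriv (hg : Differentiable ℝ g) (hk : Differentiable ℝ k) (t : ℝ) :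
    HasDerivAt (cur g k) (!₂[-(2 * π) * sin (2 * π * t),
      2 * π * (k (cos (2 * π * t)) * cos (2 * π * t) - (deriv g (cos (2 * π * t)) +
        deriv k (cos (2 * π * t)) * sin (2 * π * t)) * sin (2 * π * t))] :
        EuclideanSpace ℝ (Fin 2)) t := by
  have h1 : HasDerivAt (fun t : ℝ => (![cos (2 * π * t),
      g (cos (2 * π * t)) + k (cos (2 * π * t)) * sin (2 * π * t)] : Fin 2 → ℝ))
      (![-(2 * π) * sin (2 * π * t),
      2 * π * (k (cos (2 * π * t)) * cos (2 * π * t) - (deriv g (cos (2 * π * t)) +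
        deriv k (cos (2 * π * t)) * sin (2 * π * t)) * sin (2 * π * t))] : Fin 2 → ℝ) t := by
    rw [hasDerivAt_pi]
    intro i
    fin_cases i
    · exact dcos t
    · have e1 : HasDerivAt (fun t : ℝ => g (cos (2 * π * t)))
          (deriv g (cos (2 * π * t)) * (-(2 * π) * sin (2 * π * t))) t :=
        (hg (cos (2 * π * t))).hasDerivAt.comp t (dcos t)
      have e2 : HasDerivAt (fun t : ℝ => k (cos (2 * π * t)))
          (deriv k (cos (2 * π * t)) * (-(2 * π) * sin (2 * π * t))) t :=
        (hk (cos (2 * π * t))).hasDerivAt.comp t (dcos t)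
      have e3 := e1.add (e2.mul (dsin t))
      refine e3.congr_deriv ?_
      show _ = 2 * π * (k (cos (2 * π * t)) * cos (2 * π * t) - (deriv g (cos (2 * π * t)) +
        deriv k (cos (2 * π * t)) * sin (2 * π * t)) * sin (2 * π * t))
      ring
  exact ((EuclideanSpace.equiv (Fin 2) ℝ).symm :
    (Fin 2 → ℝ) →L[ℝ] EuclideanSpace ℝ (Fin 2)).hasFDerivAt.comp_hasDerivAt t h1

theorem cur_regular (hg : Differentiable ℝ g) (hk : Differentiable ℝ k) (hk0 : ∀ x, 0 < k x)
    (t : ℝ) : deriv (cur g k) t ≠ 0 := by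
  rw [(cur_hasDeriv hg hk t).deriv]
  intro h0
  have h1 := congrFun (congrArg (WithLp.ofLp) h0) 0
  have h2 := congrFun (congrArg (WithLp.ofLp) h0) 1
  have h1' : -(2 * π) * sin (2 * π * t) = 0 := h1
  have h2' : 2 * π * (k (cos (2 * π * t)) * cos (2 * π * t) - (deriv g (cos (2 * π * t)) +
        deriv k (cos (2 * π * t)) * sin (2 * π * t)) * sin (2 * π * t)) = 0 := h2
  have hp := Real.pi_pos
  have h3 : sin (2 * π * t) = 0 := by
    rcases mul_eq_zero.1 h1' with h | h
    · linarith
    · exact h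
  rw [h3] at h2'
  have h4 : k (cos (2 * π * t)) * cos (2 * π * t) = 0 := by
    rcases mul_eq_zero.1 h2' with h | h
    · linarith
    · linarith
  have h5 : cos (2 * π * t) = 0 := by
    rcases mul_eq_zero.1 h4 with h | h
    · exact absurd h (hk0 _).ne'
    · exact h
  have h6 := Real.sin_sq_add_cos_sq (2 * π * t)
  rw [h3, h5] at h6
  norm_num at h6

theorem cur_inj (hk0 : ∀ x, 0 < k x) : InjOn (cur g k) (Ico 0 1) := by
  intro s hs t ht h
  have h1 : cos (2 * π * s) = cos (2 * π * t) := congrFun (congrArg (WithLp.ofLp) h) 0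
  have h2 : g (cos (2 * π * s)) + k (cos (2 * π * s)) * sin (2 * π * s) =
      g (cos (2 * π * t)) + k (cos (2 * π * t)) * sin (2 * π * t) :=
    congrFun (congrArg (WithLp.ofLp) h) 1
  rw [h1] at h2
  have h3 : sin (2 * π * s) = sin (2 * π * t) :=
    mul_left_cancel₀ (hk0 (cos (2 * π * t))).ne' (add_left_cancel h2)
  have h4 := Real.Angle.cos_sin_inj h1 h3
  rw [Real.Angle.angle_eq_iff_two_pi_dvd_sub] at h4
  obtain ⟨n, hn⟩ := h4
  have hp := Real.pi_pos
  have h5 : s - t = n := by
    have : 2 * π * (s - t) = 2 * π * n := by linarith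
    exact mul_left_cancel₀ (by positivity) this
  have h6 : (n : ℝ) < 1 := by rw [← h5]; linarith [hs.2, ht.1]
  have h7 : (-1 : ℝ) < n := by rw [← h5]; linarith [hs.1, ht.2]
  have h8 : n = 0 := by
    have a1 : n < 1 := by exact_mod_cast h6
    have a2 : -1 < n := by exact_mod_cast h7
    omega
  rw [h8] at h5
  push_cast at h5
  linarith

theorem thm : Pool.Agent.Y507.CMC.S_CUR := by
  intro g k hg hk hk0
  have hg' : Differentiable ℝ g := hg.differentiable (by simp)
  have hk' : Differentiable ℝ k := hk.differentiable (by simp)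
  refine ⟨cur_smooth hg hk, cur_periodic, cur_regular hg' hk' hk0, cur_inj hk0, ?_, ?_⟩
  · intro t
    rw [(cur_hasDeriv hg' hk' t).deriv]
    show -(2 * π) * sin (2 * π * t) = -(2 * π * sin (2 * π * t))
    ring
  · intro t
    rw [(cur_hasDeriv hg' hk' t).deriv]
    rfl

end Pool.Agent.Y748.CMC
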